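import Pool.Agent.RTS.Targets

set_option autoImplicit false

/-!
# RTS, target KOT: certificates of the universal set
-/

namespace Pool.Agent.RTS

open Pool.Agent.DSR (Lang PolyTime encPair encBool Ans Letter encAns)
open Pool.Agent.RDS

namespace KOT_

theorem key_len (v : Str) : (key v).length ≤ v.length := by
  unfold key
  rw [List.length_tail]
  have h := (List.dropWhile_sublist (id : Bool → Bool) (l := v)).length_le
  omega

theorem mem_sum {vs : List Str} {v : Str} (h : v ∈ vs) :
    v.length + 1 ≤ (vs.map fun v => v.length + 1).sum := by
  induction vs with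
  | nil => simp at h
  | cons a l ih =>
    rw [List.map_cons, List.sum_cons]
    rcases List.mem_cons.1 h with h | h
    · subst h
      omega
    · have := ih h
      omega

theorem len_sum (vs : List Str) : vs.length ≤ (vs.map fun v => v.length + 1).sum := by
  induction vs with
  | nil => simp
  | cons a l ih =>
    rw [List.map_cons, List.sum_cons, List.length_cons]
    omega

theorem orc_eq (U : Str → Bool) {R R' : Str → Str} {v : Str}
    (h : R' (key v.tail) = R (key v.tail)) : orc U R' v = orc U R v := by
  match v with
  | [] => rfl
  | true :: v => rfl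
  | false :: v =>
    change (R' (key v)).getD (v.takeWhile id).length false =
      (R (key v)).getD (v.takeWhile id).length false
    have h1 : R' (key v) = R (key v) := h
    rw [h1]

theorem ins_inj (i : ℕ) : Function.Injective (ins i 0) := by
  intro x y h
  unfold ins at h
  simpa using h

theorem ins_len (i : ℕ) (x : Str) : (ins i 0 x).length = i + 2 + x.length := by
  unfold ins
  simp
  omega

end KOT_

theorem p_KOT : T_KOT := by
  classical
  intro E U hE
  obtain ⟨i, hi⟩ := hE
  refine ⟨fun R ψ hψ => ?_, i + 2, fun m hm => ?_⟩
  · obtain ⟨w, vs, h1, h2⟩ := hψ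
    unfold tsz at h1
    refine ⟨(vs.map fun v => key v.tail).toFinset, ?_, ?_, ?_⟩
    · have h3 := List.toFinset_card_le (vs.map fun v => key v.tail)
      rw [List.length_map] at h3
      have h4 := KOT_.len_sum vs
      omega
    · intro u hu
      rw [List.mem_toFinset, List.mem_map] at hu
      obtain ⟨v, hv, rfl⟩ := hu
      have h3 := KOT_.key_len v.tail
      have h4 := KOT_.mem_sum hv
      rw [List.length_tail] at h3
      omega
    · intro R' hR'
      refine ⟨w, vs, h1, ?_⟩
      have h3 : vs.map (orc U R') = vs.map (orc U R) := by
        refine List.map_congr_left fun v hv => KOT_.orc_eq U (hR' _ ?_)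
        rw [List.mem_toFinset, List.mem_map]
        exact ⟨v, hv, rfl⟩
      rw [h3]
      exact h2
  · refine ⟨(Finset.univ : Finset (List.Vector Bool (m - (i + 2)))).image
      (fun v => ins i 0 v.toList), ?_, ?_⟩
    · have hinj : Function.Injective fun v : List.Vector Bool (m - (i + 2)) => ins i 0 v.toList :=
        (KOT_.ins_inj i).comp List.Vector.toList_injective
      rw [Finset.card_image_of_injective _ hinj, Finset.card_univ, card_vector, Fintype.card_bool]
    · intro w hw
      obtain ⟨v, -, rfl⟩ := Finset.mem_image.1 hw
      refine ⟨?_, fun R => ?_⟩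
      · rw [KOT_.ins_len, List.Vector.toList_length]
        omega
      · refine ⟨[], [], ?_, i, 0, v.toList, rfl, ?_⟩
        · simp [tsz]
        · rw [hi]
          exact ⟨by simp, rfl, fun j h => absurd h (by simp), rfl⟩

end Pool.Agent.RTS
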