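import Pool.Agent.RTS.Targets
import Pool.Agent.RDS.Targets

set_option autoImplicit false

/-!
# RTS, target SEL: a good oracle
-/

namespace Pool.Agent.RTS

open Pool.Agent.DSR (Lang PolyTime encPair encBool Ans Letter encAns)
open Pool.Agent.RDS

namespace SEL_

theorem markov {Ω : Type*} [Fintype Ω] (X : Ω → ℕ) (a C : ℕ) (ha : 0 < a)
    (h : ∑ ω, X ω ≤ a * C) : {ω | 2 * a < X ω}.ncard * 2 ≤ C := by
  classical
  have e0 : {ω | 2 * a < X ω}.ncard = (Finset.univ.filter fun ω => 2 * a < X ω).card := by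
    rw [← Set.ncard_coe_finset]
    congr 1
    ext ω
    simp
  rw [e0]
  set B := Finset.univ.filter fun ω => 2 * a < X ω with hB
  have e1 : ∑ ω ∈ B, 2 * a ≤ ∑ ω ∈ B, X ω :=
    Finset.sum_le_sum fun ω hω => ((Finset.mem_filter.1 hω).2).le
  have e2 : ∑ ω ∈ B, X ω ≤ ∑ ω : Ω, X ω :=
    Finset.sum_le_sum_of_subset (Finset.subset_univ _)
  rw [Finset.sum_const, smul_eq_mul] at e1
  have e4 : a * (B.card * 2) ≤ a * C := by
    calc a * (B.card * 2) = B.card * (2 * a) := by ring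
      _ ≤ a * C := by omega
  exact Nat.le_of_mul_le_mul_left e4 ha

end SEL_

open SEL_ in
theorem p_SEL (h1 : T_INV) (h2 : Pool.Agent.RDS.T_INJC) : T_SEL := by
  intro K G q R₀ m₀ hH hR₀ m N s hm₀ hm1 hNs hsm hP
  classical
  have hC : 0 < Fintype.card (Om m N) :=
    Fintype.card_pos_iff.2 ⟨fun u => List.Vector.replicate _ false⟩
  set C := Fintype.card (Om m N) with hCdef
  have hb1 : {ω : Om m N | ¬ Reg (ex R₀ ω)}.ncard * 8 ≤ C :=
    h2 R₀ m N hR₀ hm1 (hNs.trans (Nat.pow_le_pow_right (by norm_num) hsm))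
  have hb2 : {ω : Om m N | 2 * 2 ^ (2 * s + 1) <
      {ψ | ψ ∈ FF m N ∧ ψ ∈ Exc K G (ex R₀ ω)}.ncard}.ncard * 2 ≤ C := by
    refine markov (fun ω : Om m N => {ψ | ψ ∈ FF m N ∧ ψ ∈ Exc K G (ex R₀ ω)}.ncard)
      (2 ^ (2 * s + 1)) C (by positivity) ((h1 K G q R₀ m₀ hH m N s hm₀ hP).trans ?_)
    refine Nat.mul_le_mul_right _ ?_
    calc 2 * N * 2 ^ s ≤ 2 * 2 ^ s * 2 ^ s :=
          Nat.mul_le_mul_right _ (Nat.mul_le_mul_left _ hNs)
      _ = 2 ^ (2 * s + 1) := by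
          rw [pow_succ, two_mul s, pow_add]
          ring
  obtain ⟨ω, ha, hb⟩ : ∃ ω : Om m N, Reg (ex R₀ ω) ∧
      {ψ | ψ ∈ FF m N ∧ ψ ∈ Exc K G (ex R₀ ω)}.ncard ≤ 2 * 2 ^ (2 * s + 1) := by
    by_contra hcon
    push Not at hcon
    set B1 := {ω : Om m N | ¬ Reg (ex R₀ ω)} with hB1
    set B2 := {ω : Om m N | 2 * 2 ^ (2 * s + 1) <
      {ψ | ψ ∈ FF m N ∧ ψ ∈ Exc K G (ex R₀ ω)}.ncard} with hB2
    have hU : (Set.univ : Set (Om m N)) ⊆ B1 ∪ B2 := by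
      intro ω _
      by_cases c1 : Reg (ex R₀ ω)
      · exact Or.inr (hcon ω c1)
      · exact Or.inl c1
    have h5 := Set.ncard_le_ncard hU (Set.toFinite _)
    rw [Set.ncard_univ, Nat.card_eq_fintype_card, ← hCdef] at h5
    have h6 := Set.ncard_union_le B1 B2
    omega
  have hagr : Agr (m + 1) R₀ (ex R₀ ω) := by
    intro u hu
    unfold ex
    rw [dif_neg]
    rw [mem_FF]
    omega
  refine ⟨ex R₀ ω, ha, hagr, hb.trans (le_of_eq ?_)⟩
  ring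

end Pool.Agent.RTS
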