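import Pool.Agent.RDS.Defs

set_option autoImplicit false

/-!
# Adaptive (Turing) self-reducibility relative to an oracle, in the general sense
-/

namespace Pool.Agent.RTS

open Pool.Agent.DSR (Lang PolyTime encBool)
open Pool.Agent.RDS (Orc Mv encMv encH run)

open Classical in
/-- The oracle which answers a question `1 y` by whether `y ∈ A`, and a question `0 v` by the
answer of `O` to `v`. -/
noncomputable def join (O : Orc) (A : Lang) : Orc
  | [] => false
  | true :: y => decide (y ∈ A)
  | false :: v => O v

/-- The questions which the algorithm `G` at the input `a` asks the oracle `O` in at most `n` moves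
after the answers `h`. -/
def asked {α β : Type} (O : Orc) (G : α × List Bool → Mv β) (a : α) :
    ℕ → List Bool → List (List Bool)
  | 0, _ => []
  | n + 1, h => match G (a, h) with
    | .out _ => []
    | .ask v => v :: asked O G a n (h ++ [O v])

/-- `c 0, c 1, ..., c k` is a chain: the computation at `c i`, in which all questions are answered
correctly, asks whether `c (i + 1) ∈ A`. -/
def TurChain (O : Orc) (A : Lang) (G : List Bool × List Bool → Mv Bool) (r : Polynomial ℕ)
    (c : ℕ → List Bool) (k : ℕ) : Prop :=
  ∀ i < k, true :: c (i + 1) ∈ asked (join O A) G (c i) (r.eval (c i).length) []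

/-- Self-reducibility of `A` (under polynomial time Turing reductions, relative to `O`) in the
general sense: `x ∈ A` is decided in polynomial time with the oracle `O` by adaptive questions
`y ∈ A`, where the lengths of the chains which start at `x`, and the lengths of the strings in these
chains, are bounded by a polynomial in the length of `x`. -/
def GenTuringSelfRed (O : Orc) (A : Lang) : Prop :=
  ∃ (G : List Bool × List Bool → Mv Bool) (r q : Polynomial ℕ),
    PolyTime (encH (id : List Bool → List Bool)) (encMv encBool) G ∧
    (∀ x, ∃ b, run (join O A) G x (r.eval x.length) [] = some b ∧ (b = true ↔ x ∈ A)) ∧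
    ∀ (c : ℕ → List Bool) (k : ℕ), TurChain O A G r c k →
      k ≤ q.eval (c 0).length ∧ (c k).length ≤ q.eval (c 0).length

end Pool.Agent.RTS
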