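import Pool.Agent.RDS.Core
import Pool.Agent.RTS.Defs

set_option autoImplicit false

/-!
# RTS: the abstract setting (Turing self-reductions)

The oracle is that of RDS; in the universal set the size of a computation is now at most half of
the length of the instance, so that `ψ ∈ K R` depends only on values `R u` with `2 |u| < |ψ|`.
-/

namespace Pool.Agent.RTS

open Pool.Agent.DSR (Lang PolyTime encPair encBool Ans Letter encAns)
open Pool.Agent.RDS

/-- the universal set -/
def K2 (E : ℕ → Ver) (U : Str → Bool) (R : Str → Str) : Set Str :=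
  {ψ | ∃ (w : Str) (vs : List Str), 2 * tsz w vs ≤ ψ.length ∧ Chk E ψ w vs (vs.map (orc U R))}

/-- `S` is a certificate for `ψ ∈ K R` -/
def Cer (K : (Str → Str) → Set Str) (R : Str → Str) (ψ : Str) (S : Finset Str) : Prop :=
  S.card ≤ ψ.length ∧ (∀ u ∈ S, 2 * u.length < ψ.length) ∧
    ∀ R' : Str → Str, (∀ u ∈ S, R' u = R u) → ψ ∈ K R'

/-- what is used about the universal set -/
structure KOkT (K : (Str → Str) → Set Str) : Prop where
  cert : ∀ (R : Str → Str) (ψ : Str), ψ ∈ K R → ∃ S, Cer K R ψ S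
  many : ∃ c : ℕ, ∀ m, c ≤ m → ∃ W : Finset Str, 2 ^ (m - c) ≤ W.card ∧
    ∀ w ∈ W, w.length = m ∧ ∀ R, w ∈ K R

open Classical in
/-- a certificate for `ψ ∈ K R` -/
noncomputable def SS (K : (Str → Str) → Set Str) (R : Str → Str) (ψ : Str) : Finset Str :=
  if h : ∃ S, Cer K R ψ S then h.choose else ∅

theorem SS_spec {K : (Str → Str) → Set Str} (hK : KOkT K) {R : Str → Str} {ψ : Str}
    (h : ψ ∈ K R) : Cer K R ψ (SS K R ψ) := by
  have h1 := hK.cert R ψ h
  unfold SS
  rw [dif_pos h1]
  exact h1.choose_spec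

theorem SS_card (K : (Str → Str) → Set Str) (R : Str → Str) (ψ : Str) :
    (SS K R ψ).card ≤ ψ.length := by
  unfold SS
  split_ifs with h
  · exact h.choose_spec.1
  · simp

theorem SS_len {K : (Str → Str) → Set Str} {R : Str → Str} {ψ u : Str} (hu : u ∈ SS K R ψ) :
    2 * u.length < ψ.length := by
  unfold SS at hu
  split_ifs at hu with h
  · exact h.choose_spec.2.1 u hu
  · simp at hu

/-- what is used about adaptive algorithms: `g R A x` is the result, `T R A x` the set of the
strings `u` such that a question about `R u` is asked, `Q R A x` the set of the questions to `A`,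
`P` bounds the number of questions -/
structure AlgT where
  g : (Str → Str) → Lang → Str → Option Bool
  T : (Str → Str) → Lang → Str → Finset Str
  Q : (Str → Str) → Lang → Str → Finset Str
  P : Polynomial ℕ
  loc : ∀ (R R' : Str → Str) (A A' : Lang) (y : Str), (∀ u ∈ T R A y, R u = R' u) →
    (g R' A' y = g R A y ∧ Q R' A' y = Q R A y) ∨
      ∃ y' ∈ Q R A y, y' ∈ Q R' A' y ∧ ¬ (y' ∈ A ↔ y' ∈ A')
  cardT : ∀ R A y, (T R A y).card ≤ P.eval y.length
  cardQ : ∀ R A y, (Q R A y).card ≤ P.eval y.length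

/-- the algorithm `G` with the bound `q` for the chains is a self-reduction for the oracle `R` -/
def CorrT (K : (Str → Str) → Set Str) (G : AlgT) (q : Polynomial ℕ) (R : Str → Str) : Prop :=
  (∀ x, ∃ b, G.g R (AA K R) x = some b ∧ (b = true ↔ x ∈ AA K R)) ∧
  ∀ (c : ℕ → Str) (k : ℕ), (∀ i < k, c (i + 1) ∈ G.Q R (AA K R) (c i)) →
    k ≤ q.eval (c 0).length ∧ (c k).length ≤ q.eval (c 0).length

/-- the hypothesis which will be refuted -/
def HHT (K : (Str → Str) → Set Str) (G : AlgT) (q : Polynomial ℕ) (R₀ : Str → Str) (m₀ : ℕ) :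
    Prop := ∀ R, Reg R → Agr m₀ R₀ R → CorrT K G q R

/-- the strings which are touched by the computation at `y` -/
def Tou (K : (Str → Str) → Set Str) (G : AlgT) (R : Str → Str) (y : Str) : Set Str :=
  {ψ | ψ ∈ G.T R (AA K R) y ∨ R ψ ∈ G.Q R (AA K R) y ∨
    ∃ ψ', ψ' ∈ K R ∧ R ψ' ∈ G.Q R (AA K R) y ∧ ψ ∈ SS K R ψ'}

/-- the values `y` such that the computation at `R ψ`, when the value at `ψ` is changed to `y`,
touches `ψ` -/
def BadR (K : (Str → Str) → Set Str) (G : AlgT) (R : Str → Str) (ψ : Str) :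
    Set (List.Vector Bool (10 * ψ.length + 1)) :=
  {y | Reg (up R ψ y.toList) ∧ ψ ∈ Tou K G (up R ψ y.toList) (R ψ)}

/-- the exceptional strings -/
def Exc (K : (Str → Str) → Set Str) (G : AlgT) (R : Str → Str) : Set Str :=
  {ψ | 2 ^ (10 * ψ.length + 1) ≤ 2 * (BadR K G R ψ).ncard}

end Pool.Agent.RTS
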