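import Pool.Agent.RTS.Targets

set_option autoImplicit false

/-!
# RTS, ALT: adaptive algorithms with an oracle as abstract algorithms
-/

namespace Pool.Agent.RTS

open Pool.Agent.DSR (Lang PolyTime encPair encBool Ans Letter encAns)
open Pool.Agent.RDS

namespace ALT_

/-- the string to which a question refers -/
def tk : Str → List Str
  | false :: false :: v => [key v]
  | _ => []

/-- the string about whose membership a question asks -/
def qk : Str → List Str
  | true :: y => [y]
  | _ => []

theorem tk_length (v : Str) : (tk v).length ≤ 1 := by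
  rcases v with _ | ⟨_ | _, _ | ⟨_ | _, v⟩⟩ <;> simp [tk]

theorem qk_length (v : Str) : (qk v).length ≤ 1 := by
  rcases v with _ | ⟨_ | _, v⟩ <;> simp [qk]

theorem mem_qk (y v : Str) : y ∈ qk v ↔ v = true :: y := by
  rcases v with _ | ⟨_ | _, v⟩
  · simp [qk]
  · simp [qk]
  · simp only [qk, List.mem_singleton, List.cons.injEq, true_and]
    exact eq_comm

theorem flat_length (f : Str → List Str) (hf : ∀ v, (f v).length ≤ 1) (l : List Str) :
    (l.flatMap f).length ≤ l.length := by
  induction l with
  | nil => simp
  | cons v l ih =>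
    have := hf v
    rw [List.flatMap_cons, List.length_append, List.length_cons]
    omega

theorem asked_length {α β : Type} (O : Orc) (G : α × List Bool → Mv β) (a : α) :
    ∀ (n : ℕ) (h : List Bool), (asked O G a n h).length ≤ n := by
  intro n
  induction n with
  | zero => intro h; simp [asked]
  | succ n ih =>
    intro h
    unfold asked
    cases hG : G (a, h) with
    | out b => simp
    | ask v =>
      simp only [List.length_cons]
      have := ih (h ++ [O v])
      omega

/-- the answer to one question -/
theorem join_eq (U : Str → Bool) (R R' : Str → Str) (A A' : Lang) (v : Str)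
    (h : ∀ u ∈ tk v, R u = R' u) : join (orc U R') A' v = join (orc U R) A v ∨
      ∃ y, v = true :: y ∧ ¬ (y ∈ A ↔ y ∈ A') := by
  rcases v with _ | ⟨_ | _, v⟩
  · exact Or.inl rfl
  · left
    rcases v with _ | ⟨_ | _, v⟩
    · rfl
    · simp only [join, orc]
      rw [h (key v) (by simp [tk])]
    · rfl
  · by_cases h1 : v ∈ A ↔ v ∈ A'
    · left
      simp only [join]
      by_cases h2 : v ∈ A
      · have h3 := h1.1 h2
        simp [h2, h3]
      · have h3 : v ∉ A' := fun h3 => h2 (h1.2 h3)
        simp [h2, h3]
    · exact Or.inr ⟨v, rfl, h1⟩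

/-- the computations agree up to the first question which is answered differently -/
theorem run_loc {α β : Type} (U : Str → Bool) (R R' : Str → Str) (A A' : Lang)
    (G : α × List Bool → Mv β) (a : α) : ∀ (n : ℕ) (h : List Bool),
    (∀ v ∈ asked (join (orc U R) A) G a n h, ∀ u ∈ tk v, R u = R' u) →
    (run (join (orc U R') A') G a n h = run (join (orc U R) A) G a n h ∧
      asked (join (orc U R') A') G a n h = asked (join (orc U R) A) G a n h) ∨
    ∃ y, true :: y ∈ asked (join (orc U R) A) G a n h ∧
      true :: y ∈ asked (join (orc U R') A') G a n h ∧ ¬ (y ∈ A ↔ y ∈ A') := by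
  intro n
  induction n with
  | zero => intro h _; exact Or.inl ⟨rfl, rfl⟩
  | succ n ih =>
    intro h hv
    unfold asked at hv
    unfold run asked
    cases hG : G (a, h) with
    | out b => exact Or.inl ⟨rfl, rfl⟩
    | ask v =>
      rw [hG] at hv
      simp only [List.mem_cons] at hv
      simp only [List.mem_cons]
      rcases join_eq U R R' A A' v (hv v (Or.inl rfl)) with h1 | ⟨y, h1, h2⟩
      · rw [h1]
        rcases ih (h ++ [join (orc U R) A v]) (fun u hu => hv u (Or.inr hu)) with
          ⟨h3, h4⟩ | ⟨y, h3, h4, h5⟩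
        · left
          rw [h3, h4]
          exact ⟨rfl, rfl⟩
        · exact Or.inr ⟨y, Or.inr h3, Or.inr h4, h5⟩
      · exact Or.inr ⟨y, Or.inl h1.symm, Or.inl h1.symm, h2⟩

end ALT_

open ALT_ in
theorem p_ALT : T_ALT := by
  intro U G₀ r
  have hQ : ∀ (R : Str → Str) (A : Lang) (x y : Str),
      y ∈ ((asked (join (orc U R) A) G₀ x (r.eval x.length) []).flatMap qk).toFinset ↔
        true :: y ∈ asked (join (orc U R) A) G₀ x (r.eval x.length) [] := by
    intro R A x y
    rw [List.mem_toFinset, List.mem_flatMap]
    constructor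
    · rintro ⟨v, hv, hy⟩
      rw [mem_qk] at hy
      rwa [hy] at hv
    · intro hy
      exact ⟨true :: y, hy, (mem_qk _ _).2 rfl⟩
  refine ⟨{
    g := fun R A x => run (join (orc U R) A) G₀ x (r.eval x.length) []
    T := fun R A x => ((asked (join (orc U R) A) G₀ x (r.eval x.length) []).flatMap tk).toFinset
    Q := fun R A x => ((asked (join (orc U R) A) G₀ x (r.eval x.length) []).flatMap qk).toFinset
    P := r
    loc := fun R R' A A' y h => ?_
    cardT := fun R A y => (List.toFinset_card_le _).trans
      ((flat_length tk tk_length _).trans (asked_length _ _ _ _ _))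
    cardQ := fun R A y => (List.toFinset_card_le _).trans
      ((flat_length qk qk_length _).trans (asked_length _ _ _ _ _)) },
    fun R A x => ⟨rfl, fun y => hQ R A x y⟩⟩
  have h1 : ∀ v ∈ asked (join (orc U R) A) G₀ y (r.eval y.length) [], ∀ u ∈ tk v,
      R u = R' u := by
    intro v hv u hu
    refine h u ?_
    rw [List.mem_toFinset, List.mem_flatMap]
    exact ⟨v, hv, hu⟩
  rcases run_loc U R R' A A' G₀ y (r.eval y.length) [] h1 with ⟨h2, h3⟩ | ⟨y', h2, h3, h4⟩
  · left
    refine ⟨h2, ?_⟩
    rw [h3]
  · exact Or.inr ⟨y', (hQ R A y y').2 h2, (hQ R' A' y y').2 h3, h4⟩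

end Pool.Agent.RTS
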