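import Pool.Agent.RTS.Targets

set_option autoImplicit false

/-!
# RTS, target CNT: counting of chains
-/

namespace Pool.Agent.RTS

open Pool.Agent.DSR (Lang PolyTime encPair encBool Ans Letter encAns)
open Pool.Agent.RDS

namespace CNT_

open Classical in
/-- the strings from which `I` is reached in `j` steps -/
noncomputable def LV (K : (Str → Str) → Set Str) (R : Str → Str) (I : Finset Str) :
    ℕ → Finset Str
  | 0 => I
  | j + 1 => (LV K R I j).biUnion fun ψ' => SS K R ψ'

theorem lv_len {K : (Str → Str) → Set Str} {R : Str → Str} {I : Finset Str} {N : ℕ}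
    (hI : ∀ ψ ∈ I, ψ.length ≤ N) (j : ℕ) : ∀ ψ ∈ LV K R I j, ψ.length ≤ N := by
  induction j with
  | zero => exact hI
  | succ j ih =>
    intro ψ hψ
    obtain ⟨ψ', h1, h2⟩ := Finset.mem_biUnion.1 hψ
    have h3 := SS_len h2
    have h4 := ih ψ' h1
    omega

theorem lv_card {K : (Str → Str) → Set Str} {R : Str → Str} {I : Finset Str} {N : ℕ}
    (hI : ∀ ψ ∈ I, ψ.length ≤ N) (j : ℕ) : (LV K R I j).card ≤ N ^ j * I.card := by
  induction j with
  | zero => simp [LV]
  | succ j ih =>
    have h1 : (LV K R I (j + 1)).card ≤ (LV K R I j).card * N :=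
      Finset.card_biUnion_le_card_mul _ _ _ fun ψ' hψ' =>
        (SS_card K R ψ').trans (lv_len hI j ψ' hψ')
    calc (LV K R I (j + 1)).card ≤ (LV K R I j).card * N := h1
      _ ≤ (N ^ j * I.card) * N := Nat.mul_le_mul_right _ ih
      _ = N ^ (j + 1) * I.card := by ring

/-- a chain of length `i` which starts at `w` -/
def Seq (K : (Str → Str) → Set Str) (G : AlgT) (R : Str → Str) (w : Str) (i : ℕ)
    (ψ : ℕ → Str) : Prop :=
  ψ 0 = w ∧ (∀ t ≤ i, ψ t ∈ K R) ∧
    ∀ t < i, ψ t ∈ SS K R (ψ (t + 1)) ∧ R (ψ (t + 1)) ∈ G.Q R (AA K R) (R (ψ t))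

theorem seq_lv {K : (Str → Str) → Set Str} {G : AlgT} {R : Str → Str} {w : Str} {i : ℕ}
    {ψ : ℕ → Str} (h : Seq K G R w i ψ) {I : Finset Str} (hI : ψ i ∈ I) : w ∈ LV K R I i := by
  have key : ∀ s, s ≤ i → ψ (i - s) ∈ LV K R I s := by
    intro s
    induction s with
    | zero => intro _; exact hI
    | succ s ih =>
      intro hs
      have h1 := ih (by omega)
      have h2 := (h.2.2 (i - (s + 1)) (by omega)).1
      rw [show i - (s + 1) + 1 = i - s by omega] at h2
      exact Finset.mem_biUnion.2 ⟨_, h1, h2⟩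
  have := key i le_rfl
  rwa [Nat.sub_self, h.1] at this

theorem seq_grow {K : (Str → Str) → Set Str} {G : AlgT} {R : Str → Str} {w : Str} {i : ℕ}
    {ψ : ℕ → Str} (h : Seq K G R w i ψ) : ∀ t ≤ i, w.length * 2 ^ t ≤ (ψ t).length := by
  intro t
  induction t with
  | zero => intro _; rw [h.1]; simp
  | succ t ih =>
    intro ht
    have h1 := ih (by omega)
    have h2 := SS_len (h.2.2 t (by omega)).1
    rw [pow_succ, ← mul_assoc]
    omega

end CNT_

open CNT_

/-- CNT: counting of chains. -/
theorem p_CNT : T_CNT := by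
  classical
  intro K G q R hR hC M N D I W hqN hND hM hW hI hnext
  rcases W.eq_empty_or_nonempty with h0 | ⟨w₀, hw₀⟩
  · simp [h0]
  have hlen : ∀ w ∈ W, ∀ (i : ℕ) (ψ : ℕ → Str), Seq K G R w i ψ → (ψ i).length ≤ N := by
    intro w hw i ψ hψ
    have h1 := (hC.2 (fun t => R (ψ t)) i fun t ht => (hψ.2.2 t ht).2).2
    simp only [hψ.1] at h1
    rw [hR.len, hR.len, (hW w hw).1, hqN] at h1
    omega
  have hN1 : 1 ≤ N := by
    have h1 := hlen w₀ hw₀ 0 (fun _ => w₀) ⟨rfl, fun _ _ => (hW w₀ hw₀).2, by simp⟩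
    have h2 := (hW w₀ hw₀).1
    rw [h2] at h1
    omega
  have hcov : ∀ w ∈ W, ∃ j ∈ Finset.range (D + 1), w ∈ LV K R I j := by
    intro w hw
    by_contra hno
    push Not at hno
    have hex : ∀ i, i ≤ D → ∃ ψ : ℕ → Str, Seq K G R w i ψ := by
      intro i
      induction i with
      | zero => intro _; exact ⟨fun _ => w, rfl, fun _ _ => (hW w hw).2, by simp⟩
      | succ i ih =>
        intro hi
        obtain ⟨ψ, hψ⟩ := ih (by omega)
        have h1 : ψ i ∉ I := fun h => hno i (Finset.mem_range.2 (by omega)) (seq_lv hψ h)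
        have h2 : M ≤ (ψ i).length := by
          have := seq_grow hψ i le_rfl
          rw [(hW w hw).1] at this
          exact (Nat.le_mul_of_pos_right M (by positivity)).trans this
        obtain ⟨ψ', h3, h4, h5⟩ := hnext (ψ i) (hψ.2.1 i le_rfl) h2 (hlen w hw i ψ hψ) h1
        refine ⟨fun t => if t ≤ i then ψ t else ψ', ?_, ?_, ?_⟩
        · simp [hψ.1]
        · intro t ht
          by_cases hti : t ≤ i
          · simp only [if_pos hti]
            exact hψ.2.1 t hti
          · simp only [if_neg hti]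
            exact h3
        · intro t ht
          by_cases hti : t + 1 ≤ i
          · simp only [if_pos hti, if_pos (show t ≤ i by omega)]
            exact hψ.2.2 t (by omega)
          · have : t = i := by omega
            subst this
            simp only [if_neg hti, if_pos le_rfl]
            exact ⟨h4, h5⟩
    obtain ⟨ψ, hψ⟩ := hex D le_rfl
    have h1 := seq_grow hψ D le_rfl
    have h2 := hlen w hw D ψ hψ
    rw [(hW w hw).1] at h1
    have h3 : 2 ^ D ≤ M * 2 ^ D := Nat.le_mul_of_pos_left _ hM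
    omega
  have hsub : W ⊆ (Finset.range (D + 1)).biUnion (LV K R I) := fun w hw => by
    obtain ⟨j, hj, h⟩ := hcov w hw
    exact Finset.mem_biUnion.2 ⟨j, hj, h⟩
  calc W.card ≤ ((Finset.range (D + 1)).biUnion (LV K R I)).card := Finset.card_le_card hsub
    _ ≤ (Finset.range (D + 1)).card * (N ^ D * I.card) := by
        refine Finset.card_biUnion_le_card_mul _ _ _ fun j hj => ?_
        have h1 : j ≤ D := Nat.lt_succ_iff.1 (Finset.mem_range.1 hj)
        exact (lv_card hI j).trans (Nat.mul_le_mul_right _ (Nat.pow_le_pow_right hN1 h1))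
    _ = (D + 1) * (N ^ D * I.card) := by rw [Finset.card_range]

end Pool.Agent.RTS
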