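import Pool.Agent.RTS.Targets
import Pool.Agent.RDS.Targets

set_option autoImplicit false

/-!
# RTS, block CORE: the hypothesis HHT is refuted (assembly)
-/

namespace Pool.Agent.RTS

open Pool.Agent.RDS

namespace CORE_

/-- the numerical estimate -/
theorem num (s c M N i w : ℕ) (h : s * s + 6 * s + c + 8 ≤ M) (hN : N ≤ 2 ^ s)
    (hi : i ≤ 2 ^ (2 * s + 2)) (hw : 2 ^ (M - c) ≤ w) :
    (s + 1 + 1) * (N ^ (s + 1) * i) < w := by
  have h1 : s + 1 + 1 ≤ 2 ^ (s + 1) := (s + 1).lt_two_pow_self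
  have h2 : N ^ (s + 1) ≤ 2 ^ (s * (s + 1)) := by
    rw [pow_mul]
    exact Nat.pow_le_pow_left hN _
  have h3 : (s + 1 + 1) * (N ^ (s + 1) * i) ≤
      2 ^ (s + 1) * (2 ^ (s * (s + 1)) * 2 ^ (2 * s + 2)) :=
    Nat.mul_le_mul h1 (Nat.mul_le_mul h2 hi)
  refine lt_of_le_of_lt h3 (lt_of_lt_of_le ?_ hw)
  rw [← pow_add, ← pow_add]
  apply Nat.pow_lt_pow_right (by norm_num)
  have h5 : s * (s + 1) = s * s + s := by ring
  rw [h5]
  omega

end CORE_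

open CORE_ in
theorem p_CORE (hSEL : T_SEL) (hLNK : T_LNK) (hCNT : T_CNT) (hASY : Pool.Agent.RDS.T_ASY) :
    T_CORE := by
  classical
  intro K hK G q R₀ m₀ hR₀ H
  obtain ⟨c, hc⟩ := hK.many
  obtain ⟨M, s, hm₀, hm1, hcm, hq, hP, hs⟩ := hASY (G.P * (q + 2)) q c m₀
  obtain ⟨W, hW, hW'⟩ := hc M hcm
  obtain ⟨m, rfl⟩ : ∃ m, M = m + 1 := ⟨M - 1, by omega⟩
  have hsm : s ≤ m := by nlinarith
  obtain ⟨R, hR, hRa, hI⟩ := hSEL K G q R₀ m₀ H hR₀ m (q.eval (10 * (m + 1) + 1)) s hm₀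
    (by omega) hq hsm hP
  have hRa₀ : Agr m₀ R₀ R := fun u hu => hRa u (by omega)
  have hC : CorrT K G q R := H R hR hRa₀
  set N := q.eval (10 * (m + 1) + 1) with hN
  set I : Finset Str := (FF m N).filter fun ψ => ψ ∈ Exc K G R with hIdef
  have hIc : I.card ≤ 2 ^ (2 * s + 2) := by
    have h1 : {ψ | ψ ∈ FF m N ∧ ψ ∈ Exc K G R} = (I : Set Str) := by
      ext ψ
      simp [hIdef]
    rw [h1, Set.ncard_coe_finset] at hI
    exact hI
  have h := hCNT K G q R hR hC (m + 1) N (s + 1) I W hN.symm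
    (lt_of_le_of_lt hq (Nat.pow_lt_pow_right (by norm_num) (by omega))) (by omega)
    (fun w hw => ⟨(hW' w hw).1, (hW' w hw).2 R⟩)
    (fun ψ hψ => (mem_FF.1 (Finset.mem_filter.1 hψ).1).2)
    (fun ψ hψ h1 h2 h3 => hLNK K hK G q R₀ m₀ H R hR hRa₀ ψ (by omega) (by omega) hψ
      (fun h4 => h3 (Finset.mem_filter.2 ⟨mem_FF.2 ⟨by omega, h2⟩, h4⟩)))
  exact absurd h (not_le.2 (num s c (m + 1) N I.card W.card hs hq hIc hW))

end Pool.Agent.RTS
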