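import Pool.Agent.RTS.Targets

set_option autoImplicit false

/-!
# RTS, target D2T: disjunctive self-reductions as adaptive ones
-/

namespace Pool.Agent.RTS

open Pool.Agent.DSR (Lang PolyTime encPair encBool Ans Letter encAns)
open Pool.Agent.RDS

namespace D2T_

open Classical in
/-- the result -/
noncomputable def res (A : Lang) : Option Ans → Option Bool
  | none => none
  | some .accept => some true
  | some .reject => some false
  | some (.ask l) => some (decide (∃ y ∈ l, y ∈ A))

/-- the questions to `A` -/
def qs : Option Ans → Finset Str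
  | some (.ask l) => l.toFinset
  | _ => ∅

theorem mem_qs {o : Option Ans} {y : Str} (h : y ∈ qs o) : ∃ l, o = some (.ask l) ∧ y ∈ l := by
  unfold qs at h
  split at h
  · exact ⟨_, rfl, List.mem_toFinset.1 h⟩
  · simp at h

theorem loc_aux (o : Option Ans) (A A' : Lang) :
    (res A' o = res A o ∧ qs o = qs o) ∨ ∃ y' ∈ qs o, y' ∈ qs o ∧ ¬ (y' ∈ A ↔ y' ∈ A') := by
  classical
  by_cases h : ∃ y' ∈ qs o, ¬ (y' ∈ A ↔ y' ∈ A')
  · obtain ⟨y', h1, h2⟩ := h
    exact Or.inr ⟨y', h1, h1, h2⟩
  · refine Or.inl ⟨?_, rfl⟩
    push Not at h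
    rcases o with _ | a
    · rfl
    · cases a with
      | accept => rfl
      | reject => rfl
      | ask l =>
        have h1 : ∀ y' ∈ l, (y' ∈ A ↔ y' ∈ A') := fun y' hy => h y' (by
          show y' ∈ l.toFinset
          exact List.mem_toFinset.2 hy)
        have h2 : (∃ y ∈ l, y ∈ A') ↔ ∃ y ∈ l, y ∈ A := by
          constructor
          · rintro ⟨y, hy, hA⟩
            exact ⟨y, hy, (h1 y hy).2 hA⟩
          · rintro ⟨y, hy, hA⟩
            exact ⟨y, hy, (h1 y hy).1 hA⟩
        simp only [res]
        congr 1
        exact decide_eq_decide.2 h2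

theorem card_qs {G : Alg} {R : Str → Str} {x : Str} :
    (qs (G.g R x)).card ≤ G.P.eval x.length := by
  rcases hg : G.g R x with _ | a
  · simp [qs]
  · cases a with
    | accept => simp [qs]
    | reject => simp [qs]
    | ask l =>
      show l.toFinset.card ≤ _
      exact (List.toFinset_card_le l).trans (G.kids R x l hg)

end D2T_

open D2T_ in
/-- **D2T** -/
theorem p_D2T : T_D2T := by
  classical
  intro G
  refine ⟨{ g := fun R A x => res A (G.g R x)
            T := fun R _ x => G.T R x
            Q := fun R _ x => qs (G.g R x)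
            P := G.P
            loc := fun R R' A A' y h => ?_
            cardT := fun R _ y => G.cardT R y
            cardQ := fun _ _ _ => card_qs }, ?_⟩
  · have h1 := (G.loc R R' y h).1
    show (res A' (G.g R' y) = res A (G.g R y) ∧ qs (G.g R' y) = qs (G.g R y)) ∨ _
    rw [h1]
    exact loc_aux (G.g R y) A A'
  · intro K q R hC
    refine ⟨fun x => ?_, fun c k hc => ?_⟩
    · obtain ⟨a, ha, hR⟩ := hC.1 x
      show ∃ b, res (AA K R) (G.g R x) = some b ∧ (b = true ↔ x ∈ AA K R)
      rw [ha]
      cases a with
      | accept => exact ⟨true, rfl, ⟨fun _ => hR, fun _ => rfl⟩⟩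
      | reject => exact ⟨false, rfl, ⟨fun h => absurd h (by simp), fun h => absurd h hR⟩⟩
      | ask l =>
        refine ⟨_, rfl, ?_⟩
        rw [decide_eq_true_eq]
        exact hR.symm
    · refine hC.2 c k fun i hi => ?_
      exact mem_qs (hc i hi)

end Pool.Agent.RTS
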