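import Pool.Agent.RTS.Targets
import Pool.Agent.RDS.P_HRD

set_option autoImplicit false

/-!
# RTS: HRT, the set of all values at the universal set is hard (after RDS/P_HRD)
-/

namespace Pool.Agent.RTS

open Pool.Agent.DSR (Lang PolyTime encPair encBool Ans Letter encAns)
open Pool.Agent.PT (Dat PolyF Core)
open Pool.Agent.RDS

open Pool.Agent.RDS.HRD_ in
theorem p_HRT (h1 : T_CNV) (h2 : T_OUTL) : T_HRT := by
  intro E hE R hR B ⟨q, V, ⟨G, r, hG, hrun⟩, hB⟩
  obtain ⟨i, hi⟩ := hE (G, q) hG
  obtain ⟨s, hs⟩ := h2 (encH encPair) (encMv encBool) G hG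
  have hC : Fact Core := ⟨Pool.Agent.PT.core⟩
  -- the bound for the size of a computation
  obtain ⟨e, he⟩ : ∃ e : Polynomial ℕ, e = Polynomial.X + q := ⟨_, rfl⟩
  obtain ⟨t0, ht0⟩ : ∃ t : Polynomial ℕ, t = q + (r.comp e) * (s.comp (e + r.comp e)) := ⟨_, rfl⟩
  obtain ⟨t, ht⟩ : ∃ t : Polynomial ℕ, t = t0 + t0 := ⟨_, rfl⟩
  obtain ⟨L, hL, hLl⟩ := Pool.Agent.CookLevin.tLEN (Γ := Bool) t
  obtain ⟨f, hf⟩ : ∃ f : Str → Str, f = fun x => ins i (t.eval x.length) x := ⟨_, rfl⟩
  have hfx : ∀ x, f x = ins i (t.eval x.length) x := fun x => by rw [hf]
  have hfp : PolyF f := by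
    have h4 : PolyF (fun x : Str => List.replicate i true ++ false ::
        ((L x).map (fun _ => true) ++ false :: x)) := by
      refine PolyF.append (PolyF.const _) (PolyF.cons (PolyF.const _) (PolyF.append ?_
        (PolyF.cons (PolyF.const _) PolyF.id)))
      exact PolyF.map (f := fun (_ : Str) (_ : Unit) => true) (PolyF.const _) hL
    refine h4.congr fun x => ?_
    rw [hfx, List.map_const', hLl]
    rfl
  refine ⟨fun x => R (f x), ⟨fun p => mvOf (rd f p),
    10 * (Polynomial.C (i + 2) + t + Polynomial.X) + 2, h1.2 _ (rd_pt hfp), fun x => ?_⟩,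
    fun x => ?_⟩
  · have h5 := rd_run (UU E) R hR f x (10 * (f x).length + 1) [] (by simp) (by simp)
    refine run_mono _ _ _ _ _ _ h5 _ ?_
    simp only [Polynomial.eval_add, Polynomial.eval_mul, Polynomial.eval_ofNat,
      Polynomial.eval_C, Polynomial.eval_X, id_eq]
    rw [hfx, length_ins]
    omega
  · -- the equivalence
    have hAA : R (f x) ∈ AA (K2 E (UU E)) R ↔ f x ∈ K2 E (UU E) R := by
      constructor
      · rintro ⟨ψ, hψ, hψ'⟩
        rw [← hR.inj hψ']
        exact hψ
      · intro h
        exact ⟨f x, h, rfl⟩
    rw [hAA, hB]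
    constructor
    · rintro ⟨w, hw, hVw⟩
      have h5 := hrun (x, w)
      rw [hVw] at h5
      obtain ⟨vs, h6, h7, h8⟩ := run_tran _ _ _ _ _ _ h5
      simp only [List.nil_append] at h7 h8
      refine ⟨w, vs, ?_, i, t.eval x.length, x, hfx x, ?_⟩
      · -- the size
        rw [hfx, length_ins]
        have ha : (encPair (x, w)).length ≤ e.eval x.length := by
          rw [length_encPair, he, Polynomial.eval_add, Polynomial.eval_X]
          omega
        have hr : r.eval (encPair (x, w)).length ≤ (r.comp e).eval x.length := by
          rw [Polynomial.eval_comp]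
          exact eval_mono r ha
        have hv : ∀ v ∈ vs, v.length + 1 ≤ (s.comp (e + r.comp e)).eval x.length := by
          intro v hv
          obtain ⟨j, hj, rfl⟩ := List.getElem_of_mem hv
          have h9 := hs ((x, w), (vs.map (orc (UU E) R)).take j)
          rw [h7 j hj] at h9
          have h10 : (encMv encBool (Mv.ask vs[j])).length = vs[j].length + 1 := by
            unfold encMv
            simp
          have h11 : (encH encPair ((x, w), (vs.map (orc (UU E) R)).take j)).length ≤
              (e + r.comp e).eval x.length := by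
            unfold encH
            rw [List.length_append, List.length_map, List.length_map, List.length_take,
              List.length_map, Polynomial.eval_add]
            have h12 : min j vs.length ≤ vs.length := min_le_right _ _
            simp only
            omega
          rw [h10] at h9
          rw [Polynomial.eval_comp]
          exact h9.trans (eval_mono s h11)
        have hsum : (vs.map fun v => v.length + 1).sum ≤
            vs.length * (s.comp (e + r.comp e)).eval x.length := by
          have h13 := List.sum_le_card_nsmul (vs.map fun v : Str => v.length + 1)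
            ((s.comp (e + r.comp e)).eval x.length) (by
              intro a ha
              obtain ⟨v, hv', rfl⟩ := List.mem_map.1 ha
              exact hv v hv')
          simpa using h13
        have hts : tsz w vs ≤ t0.eval x.length := by
          unfold tsz
          rw [ht0, Polynomial.eval_add, Polynomial.eval_mul]
          refine Nat.add_le_add hw (hsum.trans (Nat.mul_le_mul_right _ ?_))
          omega
        have htt : t.eval x.length = t0.eval x.length + t0.eval x.length := by
          rw [ht, Polynomial.eval_add]
        omega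
      · rw [hi]
        exact ⟨hw, by simp, h7, h8⟩
    · rintro ⟨w, vs, -, i', t', x', hx', hT⟩
      rw [hfx] at hx'
      obtain ⟨rfl, -, rfl⟩ := ins_inj hx'
      rw [hi] at hT
      obtain ⟨hw, -, h7, h8⟩ := hT
      refine ⟨w, hw, ?_⟩
      have h9 := tran_run (orc (UU E) R) G (x, w) vs [] true
        (fun j hj => by rw [List.nil_append]; exact h7 j hj)
        (by rw [List.nil_append]; exact h8)
      have h10 := hrun (x, w)
      have h11 := run_mono _ _ _ _ _ _ h9 (max (vs.length + 1)
        (r.eval (encPair (x, w)).length)) (le_max_left _ _)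
      have h12 := run_mono _ _ _ _ _ _ h10 (max (vs.length + 1)
        (r.eval (encPair (x, w)).length)) (le_max_right _ _)
      rw [h11] at h12
      exact (Option.some.inj h12).symm

end Pool.Agent.RTS
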