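import Pool.Agent.RTS.Targets
import Pool.Agent.RDS.P_INVC

set_option autoImplicit false

/-!
# RTS: target INV

Few strings are exceptional on average: for one string the pairs (oracle, new value) are exchanged,
then the sum over the strings of one length is taken.
-/

namespace Pool.Agent.RTS

open Pool.Agent.DSR (Lang PolyTime encPair encBool Ans Letter encAns)
open Pool.Agent.RDS

namespace INV_

open Pool.Agent.RDS.INVC_ (SL mem_SL ncard_vec card_SL ex_update)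

theorem ex_agr (R₀ : Str → Str) {m N m₀ : ℕ} (h : m₀ ≤ m + 1) (ω : Om m N) :
    Agr m₀ R₀ (ex R₀ ω) := by
  intro u hu
  unfold ex
  rw [dif_neg]
  intro hF
  have := (mem_FF.1 hF).1
  omega

theorem ex_val (R₀ : Str → Str) {m N : ℕ} (ω : Om m N) (ψ : Str) (h : ψ ∈ FF m N) :
    ex R₀ ω ψ = (ω ⟨ψ, h⟩).toList := by
  unfold ex
  rw [dif_pos h]

open Classical in
/-- one string -/
theorem one (h1 : T_SWP) (K : (Str → Str) → Set Str) (G : AlgT) (R₀ : Str → Str) (m N : ℕ)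
    (ψ : Str) (h : ψ ∈ FF m N) :
    {ω : Om m N | ψ ∈ Exc K G (ex R₀ ω)}.ncard * 2 ^ (10 * ψ.length + 1) ≤
      2 * ∑ ω : Om m N, ((SL (10 * ψ.length + 1)).filter fun y =>
        Reg (ex R₀ ω) ∧ ψ ∈ Tou K G (ex R₀ ω) y).card := by
  have hU := h1 {u : Str // u ∈ FF m N} (fun u => List.Vector Bool (10 * u.1.length + 1)) ⟨ψ, h⟩
    (fun ω y => Reg (ex R₀ ω) ∧ ψ ∈ Tou K G (ex R₀ ω) y.toList)
  have hU' : ∑ ω : Om m N, (BadR K G (ex R₀ ω) ψ).ncard =
      ∑ ω : Om m N, {y : List.Vector Bool (10 * ψ.length + 1) |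
        Reg (ex R₀ ω) ∧ ψ ∈ Tou K G (ex R₀ ω) y.toList}.ncard := by
    convert hU using 3 with ω _
    ext y
    unfold BadR
    simp only [Set.mem_ofPred_eq]
    rw [ex_update, ex_val R₀ ω ψ h]
  have hV : ∑ ω : Om m N, {y : List.Vector Bool (10 * ψ.length + 1) |
        Reg (ex R₀ ω) ∧ ψ ∈ Tou K G (ex R₀ ω) y.toList}.ncard =
      ∑ ω : Om m N, ((SL (10 * ψ.length + 1)).filter fun y =>
        Reg (ex R₀ ω) ∧ ψ ∈ Tou K G (ex R₀ ω) y).card := by
    refine Finset.sum_congr rfl fun ω _ => ?_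
    exact ncard_vec (10 * ψ.length + 1) (fun y => Reg (ex R₀ ω) ∧ ψ ∈ Tou K G (ex R₀ ω) y)
  rw [← hV, ← hU', Finset.mul_sum]
  have hS : {ω : Om m N | ψ ∈ Exc K G (ex R₀ ω)}.ncard =
      (Finset.univ.filter fun ω : Om m N => ψ ∈ Exc K G (ex R₀ ω)).card := by
    rw [← Set.ncard_coe_finset]
    congr 1
    ext ω
    simp
  rw [hS, Finset.card_filter, Finset.sum_mul]
  refine Finset.sum_le_sum fun ω _ => ?_
  by_cases hω : ψ ∈ Exc K G (ex R₀ ω)
  · rw [if_pos hω, one_mul]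
    exact hω
  · rw [if_neg hω, zero_mul]
    exact Nat.zero_le _

open Classical in
/-- all strings of one length, one oracle -/
theorem lev (h2 : T_TOU) (K : (Str → Str) → Set Str) (G : AlgT) (q : Polynomial ℕ)
    (R : Str → Str) (hR : Reg R → CorrT K G q R) (F : Finset Str) (l s : ℕ)
    (hP : (G.P * (q + 2)).eval (10 * l + 1) ≤ 2 ^ s) :
    ∑ ψ ∈ F, ((SL (10 * l + 1)).filter fun y => Reg R ∧ ψ ∈ Tou K G R y).card ≤
      2 ^ (10 * l + 1) * 2 ^ s := by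
  have h : ∑ ψ ∈ F, ((SL (10 * l + 1)).filter fun y => Reg R ∧ ψ ∈ Tou K G R y).card =
      ∑ y ∈ SL (10 * l + 1), (F.filter fun ψ => Reg R ∧ ψ ∈ Tou K G R y).card := by
    simp only [Finset.card_filter]
    exact Finset.sum_comm
  rw [h]
  calc ∑ y ∈ SL (10 * l + 1), (F.filter fun ψ => Reg R ∧ ψ ∈ Tou K G R y).card
      ≤ ∑ _y ∈ SL (10 * l + 1), 2 ^ s := by
        refine Finset.sum_le_sum fun y hy => ?_
        by_cases hreg : Reg R
        · obtain ⟨hfin, hcard⟩ := h2 K G q R hreg (hR hreg) y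
          refine le_trans ?_ (le_trans hcard ?_)
          · rw [← Set.ncard_coe_finset]
            refine Set.ncard_le_ncard ?_ hfin
            intro ψ hψ
            exact (Finset.mem_filter.1 (Finset.mem_coe.1 hψ)).2.2
          · rw [mem_SL.1 hy]
            exact hP
        · rw [Finset.filter_false_of_mem (fun ψ _ hc => hreg hc.1), Finset.card_empty]
          exact Nat.zero_le _
    _ = 2 ^ (10 * l + 1) * 2 ^ s := by
        rw [Finset.sum_const, card_SL, smul_eq_mul]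

/-- all strings of one length -/
theorem lenl (h1 : T_SWP) (h2 : T_TOU) (K : (Str → Str) → Set Str) (G : AlgT) (q : Polynomial ℕ)
    (R₀ : Str → Str) (m₀ : ℕ) (hH : HHT K G q R₀ m₀) (m N s : ℕ) (hm : m₀ ≤ m + 1)
    (hP : ∀ l, l ≤ 10 * N + 1 → (G.P * (q + 2)).eval l ≤ 2 ^ s) (l : ℕ) (hl : l ≤ N) :
    ∑ ψ ∈ FF m N with ψ.length = l, {ω : Om m N | ψ ∈ Exc K G (ex R₀ ω)}.ncard ≤
      2 * 2 ^ s * Fintype.card (Om m N) := by
  classical
  refine Nat.le_of_mul_le_mul_right (c := 2 ^ (10 * l + 1)) ?_ (by positivity)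
  rw [Finset.sum_mul]
  have hs : ∀ ψ ∈ (FF m N).filter (fun ψ => ψ.length = l),
      {ω : Om m N | ψ ∈ Exc K G (ex R₀ ω)}.ncard * 2 ^ (10 * l + 1) ≤
      2 * ∑ ω : Om m N, ((SL (10 * l + 1)).filter fun y =>
        Reg (ex R₀ ω) ∧ ψ ∈ Tou K G (ex R₀ ω) y).card := by
    intro ψ hψ
    obtain ⟨hF, hlen⟩ := Finset.mem_filter.1 hψ
    have := one h1 K G R₀ m N ψ hF
    rw [hlen] at this
    exact this
  refine le_trans (Finset.sum_le_sum hs) ?_
  rw [← Finset.mul_sum, Finset.sum_comm]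
  calc 2 * ∑ ω : Om m N, ∑ ψ ∈ (FF m N).filter (fun ψ => ψ.length = l),
        ((SL (10 * l + 1)).filter fun y => Reg (ex R₀ ω) ∧ ψ ∈ Tou K G (ex R₀ ω) y).card
      ≤ 2 * ∑ _ω : Om m N, 2 ^ (10 * l + 1) * 2 ^ s := by
        refine Nat.mul_le_mul_left _ (Finset.sum_le_sum fun ω _ => ?_)
        exact lev h2 K G q (ex R₀ ω) (fun hreg => hH _ hreg (ex_agr R₀ hm ω)) _ l s
          (hP _ (by omega))
    _ = 2 * 2 ^ s * Fintype.card (Om m N) * 2 ^ (10 * l + 1) := by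
        rw [Finset.sum_const, Finset.card_univ, smul_eq_mul]
        ring

end INV_

open INV_ in
theorem p_INV (h1 : T_SWP) (h2 : T_TOU) : T_INV := by
  classical
  intro K G q R₀ m₀ hH m N s hm hP
  have hmaps : ∀ ψ ∈ FF m N, ψ.length ∈ Finset.Ioc m N := by
    intro ψ hψ
    rw [Finset.mem_Ioc]
    exact mem_FF.1 hψ
  have hex : ∑ ω : Om m N, {ψ | ψ ∈ FF m N ∧ ψ ∈ Exc K G (ex R₀ ω)}.ncard =
      ∑ ψ ∈ FF m N, {ω : Om m N | ψ ∈ Exc K G (ex R₀ ω)}.ncard := by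
    have e1 : ∀ ω : Om m N, {ψ | ψ ∈ FF m N ∧ ψ ∈ Exc K G (ex R₀ ω)}.ncard =
        ∑ ψ ∈ FF m N, if ψ ∈ Exc K G (ex R₀ ω) then 1 else 0 := by
      intro ω
      rw [← Finset.card_filter, ← Set.ncard_coe_finset]
      congr 1
      ext ψ
      simp
    have e2 : ∀ ψ : Str, {ω : Om m N | ψ ∈ Exc K G (ex R₀ ω)}.ncard =
        ∑ ω : Om m N, if ψ ∈ Exc K G (ex R₀ ω) then 1 else 0 := by
      intro ψ
      rw [← Finset.card_filter, ← Set.ncard_coe_finset]
      congr 1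
      ext ω
      simp
    rw [Finset.sum_congr rfl fun ω _ => e1 ω, Finset.sum_congr rfl fun ψ _ => e2 ψ]
    exact Finset.sum_comm
  rw [hex, ← Finset.sum_fiberwise_of_maps_to hmaps]
  calc ∑ l ∈ Finset.Ioc m N, ∑ ψ ∈ FF m N with ψ.length = l,
        {ω : Om m N | ψ ∈ Exc K G (ex R₀ ω)}.ncard
      ≤ ∑ _l ∈ Finset.Ioc m N, 2 * 2 ^ s * Fintype.card (Om m N) := by
        refine Finset.sum_le_sum fun l hl => ?_
        exact lenl h1 h2 K G q R₀ m₀ hH m N s hm hP l (Finset.mem_Ioc.1 hl).2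
    _ = (N - m) * (2 * 2 ^ s * Fintype.card (Om m N)) := by
        rw [Finset.sum_const, Nat.card_Ioc, smul_eq_mul]
    _ ≤ N * (2 * 2 ^ s * Fintype.card (Om m N)) := Nat.mul_le_mul_right _ (Nat.sub_le _ _)
    _ = 2 * N * 2 ^ s * Fintype.card (Om m N) := by ring

end Pool.Agent.RTS
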