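import Pool.Agent.RTS.Targets
import Pool.Agent.RDS.P_MEM

set_option autoImplicit false
set_option linter.unusedSectionVars false

/-!
# RTS: the complete set is in NP relative to the oracle
-/

namespace Pool.Agent.RTS

open Pool.Agent.DSR (Lang PolyTime encPair encBool Ans Letter encAns tree toStr toStrs toStr_enc
  toStrs_enc cod tree_cod cod_length pt_tree pt_toStr pt_toStrs pt_fst pt_snd codF_pair codF_list
  codF_bool CodF)
open Pool.Agent.PT (Dat PolyF PolyB D Core sz sz_pair sz_cons sz_nil sz_pos sz_drop
  sz_bits_le length_lt_sz sz_bool)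
open Pool.Agent.PT.Dat (enc)
open Pool.Agent.RDS
open Pool.Agent.RDS.MEM_

namespace MET_

/-- the result -/
def FF2 (z W h : Str) : Bool :=
  decide (z.length = 10 * (pX W).length + 1) && (decide (z ++ dr z h = h) &&
    (decide (tsz (pW W) (pV W) + tsz (pW W) (pV W) ≤ (pX W).length) &&
      (dr z h).getD (pV W).length false))

/-- the algorithm -/
def AL2 (p : (Str × Str) × List Bool) : Bool × Str × Bool :=
  (decide (p.2.length < NN p.1.1 p.1.2), QQ p.1.1 p.1.2 p.2, FF2 p.1.1 p.1.2 p.2)

section
variable [hC : Fact Core]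

theorem pt_AL2 : PolyF AL2 := by
  have hz : PolyF (fun p : (Str × Str) × List Bool => p.1.1) := by fun_prop
  have hh : PolyF (fun p : (Str × Str) × List Bool => p.2) := by fun_prop
  have hX : PolyF (fun p : (Str × Str) × List Bool => pX p.1.2) := pt_pX.comp (by fun_prop)
  have hW : PolyF (fun p : (Str × Str) × List Bool => pW p.1.2) := pt_pW.comp (by fun_prop)
  have hV : PolyF (fun p : (Str × Str) × List Bool => pV p.1.2) := pt_pV.comp (by fun_prop)
  have hd : PolyF (fun p : (Str × Str) × List Bool => dr p.1.1 p.2) := pt_dr hz hh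
  have ht : PolyF (fun p : (Str × Str) × List Bool => tsz (pW p.1.2) (pV p.1.2)) := pt_tsz hW hV
  have hc : PolyF (fun p : (Str × Str) × List Bool =>
      cde (pX p.1.2, pW p.1.2, pV p.1.2, dr p.1.1 p.2)) :=
    pt_cde.comp (hX.pair (hW.pair (hV.pair hd)))
  unfold AL2
  refine PolyF.pair ?_ (PolyF.pair ?_ ?_)
  · unfold NN
    exact PolyF.nat_lt hh.length (PolyF.nat_add (PolyF.nat_add hz.length hV.length)
      (PolyF.const _))
  · unfold QQ
    refine PolyF.cond (PolyF.nat_lt hh.length hz.length) ?_ (PolyF.cond
      (PolyF.nat_lt hd.length hV.length) (PolyF.getD hV hd.length (PolyF.const _))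
      (PolyF.cons (PolyF.const _) hc))
    refine PolyF.cons (PolyF.const _) (PolyF.append ?_ (PolyF.cons (PolyF.const _) hX))
    exact PolyF.map (f := fun _ (_ : Bool) => true) (by fun_prop) hh
  · unfold FF2
    refine PolyF.and ?_ (PolyF.and (PolyF.eq (PolyF.append hz hd) hh) (PolyF.and
      (PolyF.nat_le (PolyF.nat_add ht ht) hX.length) (PolyF.getD hd hV.length (PolyF.const _))))
    have h10 : PolyF (fun p : (Str × Str) × List Bool =>
        ((pX p.1.2).flatMap fun _ => List.replicate 10 true).length + 1) := by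
      refine PolyF.nat_add (PolyF.length ?_) (PolyF.const _)
      exact PolyF.flatMap (f := fun _ (_ : Bool) => List.replicate 10 true) (by fun_prop) hX
    refine (PolyF.eq_nat hz.length h10).congr fun p => ?_
    have e : ((pX p.1.2).flatMap fun _ => List.replicate 10 true).length =
        10 * (pX p.1.2).length := by
      rw [List.length_flatMap]
      simp [mul_comm]
    rw [e]

end

/-! ### The run -/

section
variable (U : Str → Bool) (R : Str → Str) (z W : Str)

theorem FF2_iff (hR : Reg R) : FF2 z W (hst (orc U R) (QQ z W) (NN z W)) = true ↔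
    R (pX W) = z ∧ tsz (pW W) (pV W) + tsz (pW W) (pV W) ≤ (pX W).length ∧
      U (cde (pX W, pW W, pV W, (pV W).map (orc U R))) = true := by
  have hl : ((List.range z.length).map fun i => (R (pX W)).getD i false).length = z.length := by
    rw [List.length_map, List.length_range]
  have hd : dr z (hst (orc U R) (QQ z W) (NN z W)) = (pV W).map (orc U R) ++
      [U (cde (pX W, pW W, pV W, (pV W).map (orc U R)))] := by
    rw [dr_eq, hst_three, List.drop_append, hl, Nat.sub_self, List.drop_zero,
      List.drop_eq_nil_of_le hl.le, List.nil_append]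
  have hg : ((pV W).map (orc U R) ++ [U (cde (pX W, pW W, pV W, (pV W).map (orc U R)))]).getD
      (pV W).length false = U (cde (pX W, pW W, pV W, (pV W).map (orc U R))) := by
    rw [List.getD_append_right _ _ _ _ (by rw [List.length_map]), List.length_map, Nat.sub_self]
    rfl
  unfold FF2
  rw [hd, hg, hst_three]
  simp only [Bool.and_eq_true, decide_eq_true_eq]
  rw [List.append_cancel_right_eq]
  constructor
  · rintro ⟨a, b, c, d⟩
    refine ⟨?_, c, d⟩
    rw [b]
    refine List.ext_getElem ?_ ?_
    · rw [List.length_map, List.length_range, a, hR.len]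
    · intro i h1 h2
      rw [List.getElem_map, List.getElem_range, List.getD_eq_getElem _ _ h1]
  · rintro ⟨b, c, d⟩
    refine ⟨?_, ?_, c, d⟩
    · rw [← b, hR.len]
    · rw [b]
      refine List.ext_getElem ?_ ?_
      · rw [List.length_map, List.length_range]
      · intro i h1 h2
        rw [List.getElem_map, List.getElem_range, List.getD_eq_getElem _ _ h1]

end

end MET_

open MET_ in
theorem p_MET (h1 : T_CNV) : T_MET := by
  intro E R hR
  have : Fact Core := ⟨Pool.Agent.PT.core⟩
  obtain ⟨c, hc⟩ := (pt_pV).bound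
  refine ⟨Polynomial.C 8 * Polynomial.X + Polynomial.C 7,
    fun p => FF2 p.1 p.2 (hst (orc (UU E) R) (QQ p.1 p.2) (NN p.1 p.2)),
    ⟨fun p => mvOf (AL2 p), (Polynomial.C 4 * Polynomial.X + Polynomial.C 3) ^ c +
      Polynomial.X + Polynomial.C 2, h1.1 AL2 pt_AL2, ?_⟩, ?_⟩
  · rintro ⟨z, W⟩
    have e := run_eq (orc (UU E) R) (fun p => mvOf (AL2 p)) (z, W) (NN z W) (QQ z W)
      (fun h => FF2 z W h) (fun h hh => by
        simp only [AL2, mvOf, decide_eq_true hh, cond_true]) (fun h hh => by
        simp only [AL2, mvOf, decide_eq_false (Nat.not_lt.2 hh.ge), cond_false])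
      (NN z W) 0 (((Polynomial.C 4 * Polynomial.X + Polynomial.C 3) ^ c +
        Polynomial.X + Polynomial.C 2).eval (encPair (z, W)).length) (by omega) ?_
    · exact e
    · have hl : (encPair (z, W)).length = z.length + W.length := by
        unfold encPair
        rw [List.length_append, List.length_map, List.length_map]
      rw [hl]
      simp only [Polynomial.eval_pow, Polynomial.eval_add, Polynomial.eval_mul,
        Polynomial.eval_C, Polynomial.eval_X]
      have e1 : sz (pV W) ≤ (sz W + 2) ^ c := hc W
      have e2 := sz_bits_le W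
      have e3 := length_lt_sz (pV W)
      have e4 : (sz W + 2) ^ c ≤ (4 * (z.length + W.length) + 3) ^ c :=
        Nat.pow_le_pow_left (by omega) c
      unfold NN
      omega
  · intro z
    constructor
    · rintro ⟨ψ, ⟨w, vs, ht, hk⟩, rfl⟩
      refine ⟨cde (ψ, w, vs, []), ?_, ?_⟩
      · simp only [Polynomial.eval_add, Polynomial.eval_mul, Polynomial.eval_C,
          Polynomial.eval_X]
        have e1 := cde_length ψ w vs
        have e2 := hR.len ψ
        omega
      · change FF2 (R ψ) (cde (ψ, w, vs, [])) _ = true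
        rw [FF2_iff _ _ _ _ hR, pX_cde, pW_cde, pV_cde]
        exact ⟨rfl, (two_mul _).symm.trans_le ht, (UU_cde E _ _ _ _).2 hk⟩
    · rintro ⟨W, _, hW⟩
      change FF2 z W _ = true at hW
      rw [FF2_iff _ _ _ _ hR] at hW
      exact ⟨pX W, ⟨pW W, pV W, (two_mul _).trans_le hW.2.1, (UU_cde E _ _ _ _).1 hW.2.2⟩,
        hW.1⟩

end Pool.Agent.RTS
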