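import Pool.Agent.RTS.Targets

set_option autoImplicit false

/-! # RTS, PRS: a failure depends on finitely many values -/

namespace Pool.Agent.RTS

open Pool.Agent.DSR (Lang PolyTime encPair encBool Ans Letter encAns)
open Pool.Agent.RDS

namespace PRS_

theorem agr_mono {R R' : Str → Str} {m n : ℕ} (h : Agr n R R') (hmn : m ≤ n) : Agr m R R' :=
  fun u hu => h u (lt_of_lt_of_le hu hmn)

theorem agr_symm {R R' : Str → Str} {m : ℕ} (h : Agr m R R') : Agr m R' R :=
  fun u hu => (h u hu).symm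

theorem AA_imp {K : (Str → Str) → Set Str} (hK : KOkT K) {R R' : Str → Str} (hR : Reg R)
    {z : Str} (h : Agr z.length R R') (hz : z ∈ AA K R) : z ∈ AA K R' := by
  obtain ⟨ψ, h1, h2⟩ := hz
  have h3 : ψ.length < z.length := by
    rw [← h2, hR.len]
    omega
  obtain ⟨S, -, h4, h5⟩ := hK.cert R ψ h1
  refine ⟨ψ, h5 R' fun u hu => ?_, by rw [← h ψ h3, h2]⟩
  have h6 := h4 u hu
  exact (h u (by omega)).symm

theorem AA_iff {K : (Str → Str) → Set Str} (hK : KOkT K) {R R' : Str → Str} (hR : Reg R)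
    (hR' : Reg R') {z : Str} {m : ℕ} (h : Agr m R R') (hz : z.length ≤ m) :
    z ∈ AA K R ↔ z ∈ AA K R' :=
  ⟨AA_imp hK hR (agr_mono h hz), AA_imp hK hR' (agr_mono (agr_symm h) hz)⟩

/-- a bound for the lengths of the members of a finite set -/
def bd (s : Finset Str) : ℕ := s.sup List.length

theorem le_bd {s : Finset Str} {u : Str} (h : u ∈ s) : u.length ≤ bd s :=
  Finset.le_sup (f := List.length) h

theorem gQ_eq {K : (Str → Str) → Set Str} (hK : KOkT K) (G : AlgT) {R R' : Str → Str}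
    (hR : Reg R) (hR' : Reg R') {y : Str} {m : ℕ} (h : Agr m R R')
    (hm : bd (G.T R (AA K R) y) + bd (G.Q R (AA K R) y) < m) :
    G.g R' (AA K R') y = G.g R (AA K R) y ∧ G.Q R' (AA K R') y = G.Q R (AA K R) y := by
  rcases G.loc R R' (AA K R) (AA K R') y fun u hu => h u (by
    have := le_bd hu
    omega) with h1 | ⟨y', h1, -, h2⟩
  · exact h1
  · refine absurd (AA_iff hK hR hR' h ?_) h2
    have := le_bd h1
    omega

end PRS_

open PRS_ in
theorem p_PRS : T_PRS := by
  intro K hK G q R hR hC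
  unfold CorrT at hC
  rw [not_and_or] at hC
  rcases hC with hC | hC
  · push Not at hC
    obtain ⟨x, hx⟩ := hC
    refine ⟨x.length + (bd (G.T R (AA K R) x) + bd (G.Q R (AA K R) x)) + 1,
      fun R' hR' h hC' => ?_⟩
    obtain ⟨b, h1, h2⟩ := hC'.1 x
    rw [(gQ_eq hK G hR hR' h (by omega)).1] at h1
    have h3 := AA_iff hK hR hR' (z := x) h (by omega)
    rw [← h3] at h2
    have h4 := hx b h1
    rcases h4 with ⟨h5, h6⟩ | ⟨h5, h6⟩
    · exact h6 (h2.1 h5)
    · exact h5 (h2.2 h6)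
  · push Not at hC
    obtain ⟨c, k, hch, hb⟩ := hC
    refine ⟨(Finset.range k).sup (fun i => bd (G.T R (AA K R) (c i)) +
      bd (G.Q R (AA K R) (c i))) + 1, fun R' hR' h hC' => ?_⟩
    have h1 : ∀ i < k, c (i + 1) ∈ G.Q R' (AA K R') (c i) := by
      intro i hi
      rw [(gQ_eq hK G hR hR' h ?_).2]
      · exact hch i hi
      · exact Nat.lt_succ_of_le (Finset.le_sup (f := fun i => bd (G.T R (AA K R) (c i)) +
          bd (G.Q R (AA K R) (c i))) (Finset.mem_range.mpr hi))
    obtain ⟨h4, h5⟩ := hC'.2 c k h1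
    exact absurd h5 (not_le.mpr (hb h4))

end Pool.Agent.RTS
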