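import Pool.Agent.RTS.Targets
import Pool.Agent.RDS.P_UPD

set_option autoImplicit false

/-! # RTS: SWP, double counting of pairs -/

namespace Pool.Agent.RTS

open Pool.Agent.RDS.UPD_ in
open Classical in
theorem p_SWP : T_SWP := by
  intro ι _ _ V _ i B
  have h1 : ∑ ω : (∀ j, V j), {y : V i | B (Function.update ω i y) (ω i)}.ncard =
      ∑ p : (∀ j, V j) × V i, if B (Function.update p.1 i p.2) (p.1 i) then 1 else 0 := by
    rw [Fintype.sum_prod_type]
    exact Finset.sum_congr rfl fun ω _ => ncard_sum _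
  have h2 : ∑ ω : (∀ j, V j), {y : V i | B ω y}.ncard =
      ∑ p : (∀ j, V j) × V i, if B p.1 p.2 then 1 else 0 := by
    rw [Fintype.sum_prod_type]
    exact Finset.sum_congr rfl fun ω _ => ncard_sum _
  rw [h1, h2]
  exact Fintype.sum_equiv ⟨inv i, inv i, inv_inv i, inv_inv i⟩ _ _ fun p => rfl

end Pool.Agent.RTS
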