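import Pool.Agent.RTS.Targets

set_option autoImplicit false

/-!
# RTS, TOU: few strings are touched
-/

namespace Pool.Agent.RTS

open Pool.Agent.DSR (Lang PolyTime encPair encBool Ans Letter encAns)
open Pool.Agent.RDS

theorem p_TOU : T_TOU := by
  classical
  intro K G q R hR hC y
  have hTc : (G.T R (AA K R) y).card ≤ G.P.eval y.length := G.cardT _ _ _
  have hQc : (G.Q R (AA K R) y).card ≤ G.P.eval y.length := G.cardQ _ _ _
  obtain ⟨Q', hQ'⟩ : ∃ Q' : Finset Str, ∀ ψ, ψ ∈ Q' ↔ R ψ ∈ G.Q R (AA K R) y :=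
    ⟨(G.Q R (AA K R) y).preimage R hR.inj.injOn, fun ψ => Finset.mem_preimage⟩
  have hQ'c : Q'.card ≤ G.P.eval y.length :=
    (Finset.card_le_card_of_injOn R (fun u hu => (hQ' u).1 hu) hR.inj.injOn).trans hQc
  have hlen : ∀ ψ ∈ Q', (SS K R ψ).card ≤ q.eval y.length := by
    intro ψ hψ
    have h1 : R ψ ∈ G.Q R (AA K R) y := (hQ' ψ).1 hψ
    have h2 := (hC.2 (fun i => if i = 0 then y else R ψ) 1 (fun i hi => by
      have hi0 : i = 0 := by omega
      subst hi0
      simpa using h1)).2
    simp only [one_ne_zero, if_false, if_true] at h2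
    have h3 := hR.len ψ
    have h4 := SS_card K R ψ
    omega
  have hsub : Tou K G R y ⊆ ((G.T R (AA K R) y ∪ Q' ∪ Q'.biUnion (SS K R) : Finset Str) :
      Set Str) := by
    rintro ψ (h | h | ⟨ψ', h1, h2, h3⟩)
    · exact Finset.mem_coe.2 (Finset.mem_union_left _ (Finset.mem_union_left _ h))
    · exact Finset.mem_coe.2 (Finset.mem_union_left _ (Finset.mem_union_right _ ((hQ' ψ).2 h)))
    · exact Finset.mem_coe.2 (Finset.mem_union_right _
        (Finset.mem_biUnion.2 ⟨ψ', (hQ' ψ').2 h2, h3⟩))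
  have hcard : (G.T R (AA K R) y ∪ Q' ∪ Q'.biUnion (SS K R)).card ≤
      (G.P * (q + 2)).eval y.length := by
    have h1 : (Q'.biUnion (SS K R)).card ≤ Q'.card * q.eval y.length :=
      Finset.card_biUnion_le_card_mul _ _ _ hlen
    have h2 : Q'.card * q.eval y.length ≤ G.P.eval y.length * q.eval y.length :=
      Nat.mul_le_mul_right _ hQ'c
    have h3 := Finset.card_union_le (G.T R (AA K R) y ∪ Q') (Q'.biUnion (SS K R))
    have h4 := Finset.card_union_le (G.T R (AA K R) y) Q'
    have h5 : (G.P * (q + 2)).eval y.length =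
        G.P.eval y.length * q.eval y.length + 2 * G.P.eval y.length := by
      rw [Polynomial.eval_mul, Polynomial.eval_add, Polynomial.eval_ofNat]
      ring
    rw [h5]
    omega
  refine ⟨(Finset.finite_toSet _).subset hsub, ?_⟩
  refine le_trans ?_ hcard
  have h := Set.ncard_le_ncard hsub (Finset.finite_toSet _)
  rwa [Set.ncard_coe_finset] at h

end Pool.Agent.RTS
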