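import Pool.Agent.RDS.P_ALG
import Pool.Agent.RDS.P_ASY
import Pool.Agent.RDS.P_CNV
import Pool.Agent.RDS.P_CTB
import Pool.Agent.RDS.P_GEN
import Pool.Agent.RDS.P_INE
import Pool.Agent.RDS.P_INJC
import Pool.Agent.RDS.P_OUTL
import Pool.Agent.RDS.P_UPD
import Pool.Agent.RTS.P_ALT
import Pool.Agent.RTS.P_CNT
import Pool.Agent.RTS.P_CORE
import Pool.Agent.RTS.P_D2T
import Pool.Agent.RTS.P_HRT
import Pool.Agent.RTS.P_INV
import Pool.Agent.RTS.P_KOT
import Pool.Agent.RTS.P_LNK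
import Pool.Agent.RTS.P_MAIN
import Pool.Agent.RTS.P_MET
import Pool.Agent.RTS.P_PRS
import Pool.Agent.RTS.P_SEL
import Pool.Agent.RTS.P_SWP
import Pool.Agent.RTS.P_TOU

set_option autoImplicit false

/-!
# RTS: the main theorem
-/

namespace Pool.Agent.RTS

open Pool.Agent.DSR (Lang)
open Pool.Agent.RDS

/-- There are an oracle `O` and an NP-complete set relative to `O` which is not self-reducible
relative to `O` in the general sense, neither disjunctively nor adaptively. -/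
theorem main : ∃ (O : Orc) (A : Lang), NPCompleteO O A ∧ ¬ GenSelfRed O A ∧
    ¬ GenTuringSelfRed O A :=
  p_MAIN (p_CORE (p_SEL (p_INV p_SWP p_TOU) (p_INJC p_UPD)) p_LNK p_CNT p_ASY) p_PRS p_GEN p_KOT
    p_INE p_CTB p_ALT (p_ALG p_OUTL) p_D2T p_CNV (p_MET p_CNV) (p_HRT p_CNV p_OUTL)

end Pool.Agent.RTS
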