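import Pool.Agent.RTS.Targets

set_option autoImplicit false

/-!
# RTS-LNK: the next string of the chain
-/

namespace Pool.Agent.RTS

open Pool.Agent.RDS

namespace LNK_

/-- a new value which is not bad and not a value of `R` -/
theorem exists_val (K : (Str → Str) → Set Str) (G : AlgT) (R : Str → Str) (hR : Reg R) (ψ : Str)
    (hl : 1 ≤ ψ.length) (hE : ψ ∉ Exc K G R) :
    ∃ y : List.Vector Bool (10 * ψ.length + 1), y ∉ BadR K G R ψ ∧ ∀ u, R u ≠ y.toList := by
  classical
  set l := ψ.length with hl'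
  have hB : 2 * (BadR K G R ψ).ncard < 2 ^ (10 * l + 1) := by
    by_contra h
    exact hE (not_lt.1 h)
  set f : List.Vector Bool l → List.Vector Bool (10 * l + 1) := fun v =>
    ⟨R v.toList, by rw [hR.len, List.Vector.toList_length]⟩ with hf
  set B1 : Finset (List.Vector Bool (10 * l + 1)) := (BadR K G R ψ).toFinite.toFinset with hB1
  set B2 : Finset (List.Vector Bool (10 * l + 1)) := Finset.univ.image f with hB2
  have h1 : B1.card = (BadR K G R ψ).ncard := (Set.ncard_eq_toFinset_card _ _).symm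
  have h2 : B2.card ≤ 2 ^ l := by
    refine Finset.card_image_le.trans ?_
    rw [Finset.card_univ, card_vector, Fintype.card_bool]
  have h3 : (B1 ∪ B2).card < (Finset.univ : Finset (List.Vector Bool (10 * l + 1))).card := by
    refine (Finset.card_union_le _ _).trans_lt ?_
    rw [Finset.card_univ, card_vector, Fintype.card_bool]
    have h4 : 2 * 2 ^ l ≤ 2 ^ (10 * l + 1) := by
      rw [← pow_succ']
      exact Nat.pow_le_pow_right (by norm_num) (by omega)
    omega
  obtain ⟨y, -, hy⟩ := Finset.exists_mem_notMem_of_card_lt_card h3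
  rw [Finset.mem_union, not_or] at hy
  refine ⟨y, fun h => hy.1 ?_, fun u hu => hy.2 ?_⟩
  · rw [hB1, Set.Finite.mem_toFinset]
    exact h
  · rw [hB2, Finset.mem_image]
    have h5 : u.length = l := by
      have h6 := congrArg List.length hu
      rw [hR.len, List.Vector.toList_length] at h6
      omega
    refine ⟨⟨u, h5⟩, Finset.mem_univ _, ?_⟩
    apply List.Vector.toList_injective
    exact hu

end LNK_

open LNK_ in
theorem p_LNK : T_LNK := by
  intro K hK G q R₀ m₀ hH R hR hA ψ hm hl hψ hE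
  obtain ⟨z, hz1, hz2⟩ := exists_val K G R hR ψ hl hE
  set R' : Str → Str := up R ψ z.toList with hR'
  have hzl : z.toList.length = 10 * ψ.length + 1 := List.Vector.toList_length z
  have hreg : Reg R' := up_reg hR hzl (fun u _ => hz2 u)
  have hagr : Agr m₀ R₀ R' := fun u hu => (hA u hu).trans (up_agr R z.toList hm u hu)
  have hc := hH R hR hA
  have hc' := hH R' hreg hagr
  have hnt : ψ ∉ Tou K G R' (R ψ) := fun h => hz1 ⟨hreg, h⟩
  have hself : R' ψ = z.toList := up_self R ψ z.toList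
  have hoth : ∀ u, u ≠ ψ → R' u = R u := fun u hu => up_ne R z.toList hu
  have hyA : R ψ ∈ AA K R := ⟨ψ, hψ, rfl⟩
  have hyA' : R ψ ∉ AA K R' := by
    rintro ⟨u, -, hu⟩
    by_cases h1 : u = ψ
    · rw [h1, hself] at hu
      exact hz2 ψ hu.symm
    · rw [hoth u h1] at hu
      exact h1 (hR.inj hu)
  obtain ⟨b, hb1, hb2⟩ := hc.1 (R ψ)
  obtain ⟨b', hb1', hb2'⟩ := hc'.1 (R ψ)
  have hloc := G.loc R' R (AA K R') (AA K R) (R ψ) (fun u hu => by
    refine hoth u ?_
    rintro rfl
    exact hnt (Or.inl hu))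
  rcases hloc with ⟨h1, -⟩ | ⟨y₁, hq', hq, hne⟩
  · exfalso
    rw [hb1, hb1', Option.some.injEq] at h1
    rw [h1] at hb2
    exact hyA' (hb2'.1 (hb2.2 hyA))
  by_cases h1 : y₁ ∈ AA K R'
  · exfalso
    have h2 : y₁ ∉ AA K R := fun h => hne ⟨fun _ => h, fun _ => h1⟩
    obtain ⟨ψ', h3, h4⟩ := h1
    have h5 : ψ' ≠ ψ := by
      rintro rfl
      exact hnt (Or.inr (Or.inl (h4 ▸ hq')))
    have h6 : ψ' ∉ K R := fun h => h2 ⟨ψ', h, by rw [← hoth ψ' h5, h4]⟩
    have h7 : ψ ∈ SS K R' ψ' := by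
      by_contra h8
      exact h6 ((SS_spec hK h3).2.2 R (fun u hu => (hoth u (fun h => h8 (h ▸ hu))).symm))
    exact hnt (Or.inr (Or.inr ⟨ψ', h3, h4 ▸ hq', h7⟩))
  · have h2 : y₁ ∈ AA K R := by
      by_contra h
      exact hne ⟨fun h' => absurd h' h1, fun h' => absurd h' h⟩
    obtain ⟨ψ', h3, h4⟩ := h2
    have h5 : ψ' ≠ ψ := by
      rintro rfl
      have h6 : R ψ' ∈ G.Q R (AA K R) (R ψ') := by
        rw [← h4] at hq
        exact hq
      have h7 := (hc.2 (fun _ => R ψ') (q.eval (R ψ').length + 1) (fun i _ => h6)).1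
      omega
    have h6 : ψ' ∉ K R' := fun h => h1 ⟨ψ', h, by rw [hoth ψ' h5, h4]⟩
    refine ⟨ψ', h3, ?_, ?_⟩
    · by_contra h8
      exact h6 ((SS_spec hK h3).2.2 R' (fun u hu => hoth u (fun h => h8 (h ▸ hu))))
    · rw [h4]
      exact hq

end Pool.Agent.RTS
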