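import Pool.Agent.RTS.Core

set_option autoImplicit false

/-!
# RTS (MP_f8b4c8_lc, Turing version of RDS): targets

THEOREM. There are an oracle `O` and an NP-complete set `A` relative to `O` which is not
self-reducible relative to `O`, in the general sense, even by adaptive (Turing) self-reductions.
One file per target, `Pool/Agent/RTS/P_XXX.lean`, `theorem Pool.Agent.RTS.p_XXX (other targets) :
T_XXX`, helper lemmas in the namespace `Pool.Agent.RTS.XXX_`. The docstrings contain the proofs.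
-/

namespace Pool.Agent.RTS

open Pool.Agent.DSR (Lang PolyTime encPair encBool Ans Letter encAns)
open Pool.Agent.RDS


/-- **SWP** (15 min). `(ω, y) ↦ (update ω i y, ω i)` is an involution of the set of pairs
(compare `RDS/P_UPD.lean`). -/
def T_SWP : Prop := ∀ (ι : Type) [Fintype ι] [DecidableEq ι] (V : ι → Type) [∀ i, Fintype (V i)]
  (i : ι) (B : (∀ j, V j) → V i → Prop),
  ∑ ω : (∀ j, V j), {y : V i | B (Function.update ω i y) (ω i)}.ncard =
    ∑ ω : (∀ j, V j), {y : V i | B ω y}.ncard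

/-- **TOU** (25 min). `T` has at most `P` members; by injectivity of `R` at most `P` strings `ψ`
have `R ψ ∈ Q`; for each of them `|SS K R ψ| ≤ |ψ| ≤ |R ψ| ≤ q |y|` (a chain with `k = 1`). -/
def T_TOU : Prop := ∀ (K : (Str → Str) → Set Str) (G : AlgT) (q : Polynomial ℕ) (R : Str → Str),
  Reg R → CorrT K G q R → ∀ y, (Tou K G R y).Finite ∧
    (Tou K G R y).ncard ≤ (G.P * (q + 2)).eval y.length

/-- **INV** (60 min; from SWP, TOU). `C = card (Om m N)`. For `ψ ∈ FF m N` with `|ψ| = l` and `V`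
the set of
vectors of length `10 l + 1`: `#{ω | ψ ∈ Exc (ex ω)} * |V| ≤ 2 ∑_ω |BadR (ex ω) ψ|`, and
`up (ex R₀ ω) ψ y = ex R₀ (update ω ψ y)`, `(ex R₀ ω) ψ = ω ψ`, so by SWP the right side is
`2 ∑_ω #{y ∈ V | Reg (ex ω), ψ ∈ Tou (ex ω) y}`. Sum over the `ψ` of length `l` (exchange the
sums, TOU; `ex R₀ ω` agrees with `R₀` below `m + 1 ≥ m₀`, so `HHT` applies if it is regular): at
most `2 C |V| 2^s`. Divide by `|V|` and sum over `m < l ≤ N`. (Compare `RDS/P_INVC.lean`: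
`INVC_.ncard_vec, card_SL, mem_T_up, ex_update`.) -/
def T_INV : Prop := ∀ (K : (Str → Str) → Set Str) (G : AlgT) (q : Polynomial ℕ) (R₀ : Str → Str)
  (m₀ : ℕ), HHT K G q R₀ m₀ → ∀ m N s : ℕ, m₀ ≤ m + 1 →
  (∀ l, l ≤ 10 * N + 1 → (G.P * (q + 2)).eval l ≤ 2 ^ s) →
  ∑ ω : Om m N, {ψ | ψ ∈ FF m N ∧ ψ ∈ Exc K G (ex R₀ ω)}.ncard ≤
    2 * N * 2 ^ s * Fintype.card (Om m N)

/-- **SEL** (30 min; from INV and `Pool.Agent.RDS.T_INJC`). `C = card (Om m N) > 0`. At most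
`C / 8` of the
`ex R₀ ω` are not regular. If for all others the number of exceptional strings were more than
`2^(2s+2)`, the sum in INV would be at least `(7/8) C (2^(2s+2) + 1) > 2^(2s+1) C`. -/
def T_SEL : Prop := ∀ (K : (Str → Str) → Set Str) (G : AlgT) (q : Polynomial ℕ) (R₀ : Str → Str)
  (m₀ : ℕ), HHT K G q R₀ m₀ → Reg R₀ → ∀ m N s : ℕ, m₀ ≤ m + 1 → 1 ≤ m → N ≤ 2 ^ s → s ≤ m →
  (∀ l, l ≤ 10 * N + 1 → (G.P * (q + 2)).eval l ≤ 2 ^ s) →
  ∃ R, Reg R ∧ Agr (m + 1) R₀ R ∧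
    {ψ | ψ ∈ FF m N ∧ ψ ∈ Exc K G R}.ncard ≤ 2 ^ (2 * s + 2)

/-- **LNK** (45 min). `y = R ψ`. Less than half of the vectors `y'` of length `10 |ψ| + 1` are in
`BadR`, at
most `2^|ψ|` are values of `R` at other strings (`Reg.len`), one is `y`: take `y'` among the
others (`10 l + 1 ≥ l + 3`), `R' = up R ψ y'`. It is regular (`up_reg`), so `CorrT` holds for `R`
and for `R'`, `ψ ∉ Tou K G R' y`; `y ∈ AA K R`; `y` is not a value of `R'`. So the results of `G`
at `y` for `R'` and for `R` differ; apply `G.loc R' R` (`ψ ∉ G.T R' _ y`): there is `y₁`, asked in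
both computations, which is in exactly one of `AA K R'`, `AA K R`. (1) If `y₁ = R' ψ'`,
`ψ' ∈ K R'`, `y₁ ∉ AA K R`: `ψ' ≠ ψ` (`R' ψ ∉ Q`, as `ψ ∉ Tou`), so `R ψ' = y₁`, `ψ' ∉ K R`, so
`ψ ∈ SS K R' ψ'` (`SS_spec`), so `ψ ∈ Tou`, contradiction. (2) So `y₁ = R ψ'`, `ψ' ∈ K R`,
`y₁ ∉ AA K R'`. `y₁ ≠ y` (otherwise the constant sequence `y` is a chain of every length), so
`ψ' ≠ ψ`, `R' ψ' = y₁`, `ψ' ∉ K R'`, so `ψ ∈ SS K R ψ'`. -/
def T_LNK : Prop := ∀ (K : (Str → Str) → Set Str), KOkT K → ∀ (G : AlgT) (q : Polynomial ℕ)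
  (R₀ : Str → Str) (m₀ : ℕ), HHT K G q R₀ m₀ → ∀ R, Reg R → Agr m₀ R₀ R → ∀ ψ : Str,
  m₀ ≤ ψ.length → 1 ≤ ψ.length → ψ ∈ K R → ψ ∉ Exc K G R →
  ∃ ψ', ψ' ∈ K R ∧ ψ ∈ SS K R ψ' ∧ R ψ' ∈ G.Q R (AA K R) (R ψ)

/-- **CNT** (45 min). `L 0 = I`, `L (j + 1)` = union of `SS K R ψ'`, `ψ' ∈ L j`; all members have
length
at most `N` (`SS_len`), `|L j| ≤ N^j |I|` (`SS_card`). For `w ∈ W` let `ψ_0 = w`, `ψ_(i+1)` the
string which belongs to `ψ_i` by the last hypothesis, as long as `ψ_i ∉ I`. `R ψ_0, R ψ_1, ...` is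
a chain, so `|ψ_i| ≤ |R ψ_i| ≤ q (10 M + 1) = N`; `|ψ_i| ≥ 2^i |w| ≥ 2^i` (`SS_len`), so for some
`j ≤ D` `ψ_j ∈ I`, and `w ∈ L j`. `N ≥ 1` if `W` is not empty (chain with `k = 0`). -/
def T_CNT : Prop := ∀ (K : (Str → Str) → Set Str) (G : AlgT) (q : Polynomial ℕ) (R : Str → Str),
  Reg R → CorrT K G q R → ∀ (M N D : ℕ) (I W : Finset Str), q.eval (10 * M + 1) = N →
  N < 2 ^ D → 1 ≤ M → (∀ w ∈ W, w.length = M ∧ w ∈ K R) → (∀ ψ ∈ I, ψ.length ≤ N) →
  (∀ ψ ∈ K R, M ≤ ψ.length → ψ.length ≤ N → ψ ∉ I →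
    ∃ ψ', ψ' ∈ K R ∧ ψ ∈ SS K R ψ' ∧ R ψ' ∈ G.Q R (AA K R) (R ψ)) →
  W.card ≤ (D + 1) * (N ^ D * I.card)

/-- **CORE** (assembly, from SEL, LNK, CNT, `RDS.T_ASY`; helper35). -/
def T_CORE : Prop := ∀ K : (Str → Str) → Set Str, KOkT K → ∀ (G : AlgT) (q : Polynomial ℕ)
  (R₀ : Str → Str) (m₀ : ℕ), Reg R₀ → ¬ HHT K G q R₀ m₀

/-- **PRS** (40 min; compare `RDS/P_PERS.lean`). For regular `R`, `R'` which agree below `|z|`:
`z ∈ AA K R ↔ z ∈ AA K R'` (`|ψ| < |R ψ|`; a certificate uses only shorter strings). (1) A failure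
at `x`: let `R'` agree with `R` below a number which is larger than the lengths of `x`, of all
`u ∈ T R (AA K R) x` and all `y ∈ Q R (AA K R) x`; then `G.loc` gives the same result for `R'`. (2)
A bad
chain: the same for `x = c i`, `i ≤ k`; the sets `Q` are the same. -/
def T_PRS : Prop := ∀ K : (Str → Str) → Set Str, KOkT K → ∀ (G : AlgT) (q : Polynomial ℕ)
  (R : Str → Str), Reg R → ¬ CorrT K G q R →
  ∃ m, ∀ R', Reg R' → Agr m R R' → ¬ CorrT K G q R'

/-- **KOT** (30 min; edit of `RDS/P_KOK.lean`). `cert`: `S` = the strings `key v` for the questions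
`0 v` in `vs`; `2 |key v| < 2 |0 v| ≤ 2 tsz w vs ≤ |ψ|`, `|S| ≤ |vs| ≤ |ψ|`. `many`: as in
`P_KOK`. -/
def T_KOT : Prop := ∀ (E : ℕ → Ver) (U : Str → Bool),
  (∃ i, E i = (fun _ => Mv.out true, 0)) → KOkT (K2 E U)

/-- **ALT** (45 min; compare `RDS/P_ALG.lean`). `P = r`; `T R A x`: the strings `key v` for the
questions
`0 0 v` in `asked (join (orc U R) A) G₀ x (r.eval |x|) []`; `Q R A x`: the strings `y` with `1 y`
in this
list. `loc`: induction on the number of moves: as long as all answers are the same the moves are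
the same; a question `0 1 v` (to `U`) has the same answer; a question `0 0 v` has the same answer
because
`R (key v) = R' (key v)`; `[]` and `[0]` have the answer `false`; if the answers to `1 y'` differ,
`y'` is in both sets. -/
def T_ALT : Prop := ∀ (U : Str → Bool) (G₀ : Str × List Bool → Mv Bool) (r : Polynomial ℕ),
  ∃ G : AlgT, ∀ R A x,
    G.g R A x = run (join (orc U R) A) G₀ x (r.eval x.length) [] ∧
    ∀ y, (y ∈ G.Q R A x ↔ true :: y ∈ asked (join (orc U R) A) G₀ x (r.eval x.length) [])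

/-- **D2T** (20 min). A disjunctive self-reduction as an adaptive one: `T R A x = G.T R x`; if the
value is
`some (ask l)` then the result is `some (decide (∃ y ∈ l, y ∈ A))` and `Q = l.toFinset`; if it is
ACCEPT, REJECT, `none` then the result is `some true`, `some false`, `none` and `Q = ∅`. `P` is the
same. `loc`: if the
results (for the same list) differ then some member of `l` is in exactly one of `A`, `A'`. -/
def T_D2T : Prop := ∀ G : Alg, ∃ G' : AlgT, ∀ (K : (Str → Str) → Set Str) (q : Polynomial ℕ)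
  (R : Str → Str), Corr K G q R → CorrT K G' q R

/-- **MET** (edit of `RDS/P_MEM.lean` with `2 * tsz w vs ≤ |ψ|`; author: helper63). -/
def T_MET : Prop := ∀ (E : ℕ → Ver) (R : Str → Str), Reg R →
  InNPO (orc (UU E) R) (AA (K2 E (UU E)) R)

/-- **HRT** (edit of `RDS/P_HRD.lean` with `2 * tsz w vs ≤ |ψ|`; author: helper23). -/
def T_HRT : Prop := ∀ E : ℕ → Ver,
  (∀ v : Ver, PolyTime (encH encPair) (encMv encBool) v.1 → ∃ i, E i = v) →
  ∀ R : Str → Str, Reg R → ∀ B : Lang, InNPO (orc (UU E) R) B →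
    ReducesO (orc (UU E) R) B (AA (K2 E (UU E)) R)

/-- **MAIN** (assembly, helper35). -/
def T_MAIN : Prop := ∃ (O : Orc) (A : Lang), NPCompleteO O A ∧ ¬ GenSelfRed O A ∧
  ¬ GenTuringSelfRed O A

end Pool.Agent.RTS
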